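import Pool.Agent.Helper96.Final

/-!
# NP-intermediate constraint satisfaction problems of finitely bounded structures

If P is different from NP, then there is a finitely bounded structure (with domain `ℕ` and
finitely many binary relations) whose constraint satisfaction problem is NP-intermediate.
-/

set_option autoImplicit false

namespace Pool.Agent.Results.MP_9e35a6_lc.NPIntermediateCSP

open Pool.Agent.Helper96

/-- If P ≠ NP, then there is a finitely bounded structure `A` such that `CSP A` is
NP-intermediate. -/
theorem result :
    {L : Set (List Bool) | InP L} ≠ {L : Set (List Bool) | InNP L} →
      ∃ (k : ℕ) (A : BinStr k ℕ), FinitelyBounded A ∧ NPIntermediate (CSP A) :=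
  fun h => main h

end Pool.Agent.Results.MP_9e35a6_lc.NPIntermediateCSP
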